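import Pool.Agent.Helper65.Stx.Basic
import Pool.Agent.Helper81.Stx.Weyl
import Pool.Agent.Helper35.Stx.Schur

/-!
# MP_65a63f_an, row X8: two-codimensional slabs
-/

set_option autoImplicit false

namespace Stx

open Finset Stz

open scoped ComplexConjugate

/-! ### lower bound for geometric sums -/

theorem s8_sum1 (n : ℕ) : ∑ j ∈ range n, (j : ℝ) = n * (n - 1) / 2 := by
  induction n with
  | zero => simp
  | succ n ih =>
    rw [sum_range_succ, ih]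
    push_cast
    ring

theorem s8_sum2 (n : ℕ) : ∑ j ∈ range n, (j : ℝ) ^ 2 = n * (n - 1) * (2 * n - 1) / 6 := by
  induction n with
  | zero => simp
  | succ n ih =>
    rw [sum_range_succ, ih]
    push_cast
    ring

theorem s8_sum3 (J : ℕ) : ∑ j ∈ range J, ((j : ℝ) - (J - 1) / 2) ^ 2 =
    (J : ℝ) * ((J : ℝ) ^ 2 - 1) / 12 := by
  have h1 : ∑ j ∈ range J, ((j : ℝ) - (J - 1) / 2) ^ 2
      = ∑ j ∈ range J, (j : ℝ) ^ 2 - (J - 1) * ∑ j ∈ range J, (j : ℝ)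
        + J * ((J - 1) / 2) ^ 2 := by
    rw [mul_sum, ← sum_sub_distrib]
    have : (J : ℝ) * (((J : ℝ) - 1) / 2) ^ 2 = ∑ j ∈ range J, (((J : ℝ) - 1) / 2) ^ 2 := by
      rw [sum_const, card_range, nsmul_eq_mul]
    rw [this, ← sum_add_distrib]
    exact sum_congr rfl fun j _ => by ring
  rw [h1, s8_sum1, s8_sum2]
  ring

theorem s8_ps (A : ℕ) [NeZero A] (v : ZMod A) (j : ℕ) :
    ps A ((j : ZMod A) * v) =
      Complex.exp ((2 * Real.pi * (j * ((v.valMinAbs : ℝ) / A)) : ℝ) * Complex.I) := by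
  have h1 : (j : ZMod A) * v = (((j : ℤ) * v.valMinAbs : ℤ) : ZMod A) := by
    rw [Int.cast_mul, Int.cast_natCast, ZMod.coe_valMinAbs]
  unfold ps
  rw [h1, ZMod.stdAddChar_coe]
  congr 1
  push_cast
  ring

/-- geometric sums are large close to `0` -/
theorem s8_lower (A J : ℕ) [NeZero A] (hJ : 1 ≤ J) (v : ZMod A) (hv : nrm A v ≤ 1 / (2 * J)) :
    (57 / 100 : ℝ) * J ≤ ‖∑ j ∈ range J, ps A ((j : ZMod A) * v)‖ := by
  set θ : ℝ := (v.valMinAbs : ℝ) / A with hθ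
  have hJ0 : (0 : ℝ) < J := by exact_mod_cast hJ
  have hθ1 : |θ| ≤ 1 / (2 * J) := by
    have : |θ| = nrm A v := by
      rw [hθ, abs_div, Nat.abs_cast]
      rfl
    rw [this]
    exact hv
  set w : ℂ := Complex.exp ((-(Real.pi * ((J - 1) * θ)) : ℝ) * Complex.I) with hw
  have hw1 : ‖w‖ = 1 := Complex.norm_exp_ofReal_mul_I _
  have h1 : ‖∑ j ∈ range J, ps A ((j : ZMod A) * v)‖
      = ‖∑ j ∈ range J, Complex.exp ((2 * Real.pi * ((j - (J - 1) / 2) * θ) : ℝ) * Complex.I)‖ := by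
    have h0 : ‖∑ j ∈ range J, ps A ((j : ZMod A) * v)‖
        = ‖w * ∑ j ∈ range J, ps A ((j : ZMod A) * v)‖ := by rw [norm_mul, hw1, one_mul]
    rw [h0, mul_sum]
    congr 1
    refine sum_congr rfl fun j _ => ?_
    rw [s8_ps, hw, ← Complex.exp_add, ← hθ]
    congr 1
    push_cast
    ring
  rw [h1]
  refine le_trans ?_ (Complex.re_le_norm _)
  rw [Complex.re_sum]
  have h2 : ∀ j ∈ range J, 1 - 2 * Real.pi ^ 2 * θ ^ 2 * ((j : ℝ) - (J - 1) / 2) ^ 2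
      ≤ (Complex.exp ((2 * Real.pi * ((j - (J - 1) / 2) * θ) : ℝ) * Complex.I)).re := by
    intro j _
    rw [Complex.exp_ofReal_mul_I_re]
    have := Real.one_sub_sq_div_two_le_cos (x := 2 * Real.pi * ((j - (J - 1) / 2) * θ))
    refine le_trans (le_of_eq ?_) this
    ring
  refine le_trans ?_ (sum_le_sum h2)
  rw [sum_sub_distrib, ← mul_sum, s8_sum3, sum_const, card_range, nsmul_eq_mul, mul_one]
  have h3 : θ ^ 2 ≤ (1 / (2 * J)) ^ 2 := by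
    rw [← sq_abs]
    exact pow_le_pow_left₀ (abs_nonneg _) hθ1 2
  have h4 : Real.pi ^ 2 ≤ 10 := by
    have := Real.pi_lt_d2
    have h0 := Real.pi_pos
    nlinarith
  have h5 : 2 * Real.pi ^ 2 * θ ^ 2 * (J * ((J : ℝ) ^ 2 - 1) / 12) ≤ 10 / 24 * J := by
    have h6 : (0 : ℝ) ≤ J * ((J : ℝ) ^ 2 - 1) / 12 := by
      have : (1 : ℝ) ≤ J := by exact_mod_cast hJ
      have : (1 : ℝ) ≤ (J : ℝ) ^ 2 := one_le_pow₀ this
      have : (0 : ℝ) ≤ (J : ℝ) ^ 2 - 1 := by linarith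
      positivity
    calc 2 * Real.pi ^ 2 * θ ^ 2 * (J * ((J : ℝ) ^ 2 - 1) / 12)
        ≤ 2 * 10 * (1 / (2 * J)) ^ 2 * (J * ((J : ℝ) ^ 2 - 1) / 12) := by gcongr
      _ = 10 / 24 * J * (1 - 1 / (J : ℝ) ^ 2) := by
        field_simp
        ring
      _ ≤ 10 / 24 * J * 1 := by
        gcongr
        have : 0 ≤ 1 / (J : ℝ) ^ 2 := by positivity
        linarith
      _ = _ := mul_one _
  linarith

/-! ### shifts of the frequencies -/

/-- extension of the coefficients by zero -/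
noncomputable def s8_ext (r N : ℕ) (a : ℕ → (Fin r → ℕ) → ℂ) (n : ℕ) (m : Fin r → ℤ) : ℂ := by
  classical exact
    if (fun l => ((m l).toNat : ℤ)) = m ∧ (fun l => (m l).toNat) ∈ IJ r N
      then a n (fun l => (m l).toNat) else 0

theorem s8_ext_cast (r N : ℕ) (a : ℕ → (Fin r → ℕ) → ℂ) (n : ℕ) (m : Fin r → ℕ)
    (hm : m ∈ IJ r N) : s8_ext r N a n (fun l => (m l : ℤ)) = a n m := by
  unfold s8_ext
  rw [if_pos]
  · simp
  · constructor
    · funext l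
      simp
    · simpa using hm

theorem s8_ext_zero (r N : ℕ) (a : ℕ → (Fin r → ℕ) → ℂ) (n : ℕ) (m : Fin r → ℤ)
    (hm : ∀ m' ∈ IJ r N, (fun l => (m' l : ℤ)) ≠ m) : s8_ext r N a n m = 0 := by
  unfold s8_ext
  rw [if_neg]
  rintro ⟨h1, h2⟩
  exact hm _ h2 h1

theorem s8_shift {M : Type*} [AddCommMonoid M] (r N : ℕ) (S : Finset (Fin r → ℤ))
    (v : Fin r → ℤ) (hS : ∀ m ∈ IJ r N, (fun l => (m l : ℤ) + v l) ∈ S) (f : (Fin r → ℤ) → M)
    (hf : ∀ μ ∈ S, (∀ m ∈ IJ r N, (fun l => (m l : ℤ) + v l) ≠ μ) → f μ = 0) :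
    ∑ μ ∈ S, f μ = ∑ m ∈ IJ r N, f (fun l => (m l : ℤ) + v l) := by
  classical
  have h1 : ∑ m ∈ IJ r N, f (fun l => (m l : ℤ) + v l)
      = ∑ μ ∈ (IJ r N).image (fun m l => (m l : ℤ) + v l), f μ := by
    rw [sum_image]
    intro m _ m' _ h
    funext l
    have := congrFun h l
    simp only at this
    omega
  rw [h1]
  symm
  refine sum_subset ?_ ?_
  · intro μ hμ
    obtain ⟨m, hm, rfl⟩ := mem_image.mp hμ
    exact hS m hm
  · intro μ hμ hμ'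
    refine hf μ hμ fun m hm h => hμ' ?_
    exact mem_image.mpr ⟨m, hm, h⟩

/-! ### the Fourier expansion of the product -/

/-- frequency after the shift -/
def s8_w {r : ℕ} (k k' μ : Fin r → ℤ) (i j : ℕ) : Fin r → ℤ :=
  fun l => μ l - i * k l - j * k' l

/-- the phases -/
noncomputable def s8_phi (A r : ℕ) [NeZero A] (k k' : Fin r → ℤ) (c c' : ZMod A → ZMod A)
    (μ : Fin r → ℤ) (p : ℕ × ℕ × ℕ) (z : ZMod A) : ℂ :=
  ps A (((p.1 ^ 2 : ℕ) : ZMod A) * z) *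
    ps A ((sqs (fun l => μ l - p.2.1 * k l - p.2.2 * k' l) : ZMod A) * z -
      (p.2.1 : ZMod A) * c z - (p.2.2 : ZMod A) * c' z)

theorem s8_dt {A r : ℕ} (k k' : Fin r → ℤ) (m : Fin r → ℕ) (i j : ℕ) (y : Fin r → ZMod A) :
    dt (fun l => (m l : ℤ) + (i * k l + j * k' l)) y =
      ∑ l, (m l : ZMod A) * y l + (i : ZMod A) * dt k y + (j : ZMod A) * dt k' y := by
  unfold dt
  rw [mul_sum, mul_sum, ← sum_add_distrib, ← sum_add_distrib]
  refine sum_congr rfl fun l _ => ?_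
  push_cast
  ring

theorem s8_mem {r N H J : ℕ} {k k' : Fin r → ℤ} (hkH : ∀ l, |k l| ≤ H ∧ |k' l| ≤ H)
    {i j : ℕ} (hi : i < J) (hj : j < J) {m : Fin r → ℕ} (hm : m ∈ IJ r N) :
    (fun l => (m l : ℤ) + (i * k l + j * k' l)) ∈ BZ r (N + 2 * H * J) := by
  simp only [BZ, Fintype.mem_piFinset, mem_Icc] at *
  intro l
  have h1 := mem_range.mp (hm l)
  have h2 := abs_le.mp (hkH l).1
  have h3 := abs_le.mp (hkH l).2
  have h4 : |(i : ℤ) * k l| ≤ J * H := by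
    rw [abs_mul, Nat.abs_cast]
    exact mul_le_mul (by exact_mod_cast hi.le) (hkH l).1 (abs_nonneg _) (by positivity)
  have h5 : |(j : ℤ) * k' l| ≤ J * H := by
    rw [abs_mul, Nat.abs_cast]
    exact mul_le_mul (by exact_mod_cast hj.le) (hkH l).2 (abs_nonneg _) (by positivity)
  have h6 := abs_le.mp h4
  have h7 := abs_le.mp h5
  have h8 : (m l : ℤ) < N := by exact_mod_cast h1
  have h9 : (0 : ℤ) ≤ m l := by positivity
  push_cast
  constructor <;> nlinarith [h6.1, h6.2, h7.1, h7.2]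

theorem s8_sqs {r : ℕ} (m : Fin r → ℕ) :
    sqs (fun l => (m l : ℤ)) = ((∑ l, m l ^ 2 : ℕ) : ℤ) := by
  unfold sqs
  push_cast
  rfl

theorem s8_expand (A r H J N : ℕ) [NeZero A] (I : Finset ℕ) (a : ℕ → (Fin r → ℕ) → ℂ)
    (k k' : Fin r → ℤ) (hkH : ∀ l, |k l| ≤ H ∧ |k' l| ≤ H) (c c' : ZMod A → ZMod A)
    (z : ZMod A) (y : Fin r → ZMod A) :
    (∑ i ∈ range J, ps A ((i : ZMod A) * (dt k y - c z))) *
      (∑ j ∈ range J, ps A ((j : ZMod A) * (dt k' y - c' z))) * F A r I N a z y =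
    ∑ μ ∈ BZ r (N + 2 * H * J), (∑ p ∈ I ×ˢ (range J ×ˢ range J),
      s8_ext r N a p.1 (fun l => μ l - p.2.1 * k l - p.2.2 * k' l) *
        s8_phi A r k k' c c' μ p z) * ps A (dt μ y) := by
  have h1 : ∀ p ∈ I ×ˢ (range J ×ˢ range J), ∑ μ ∈ BZ r (N + 2 * H * J),
      s8_ext r N a p.1 (fun l => μ l - p.2.1 * k l - p.2.2 * k' l) *
        s8_phi A r k k' c c' μ p z * ps A (dt μ y) =
      ∑ m ∈ IJ r N, ps A ((p.2.1 : ZMod A) * (dt k y - c z)) *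
        ps A ((p.2.2 : ZMod A) * (dt k' y - c' z)) * (a p.1 m *
        ps A (((p.1 ^ 2 + ∑ l, m l ^ 2 : ℕ) : ZMod A) * z + ∑ l, (m l : ZMod A) * y l)) := by
    intro p hp
    obtain ⟨hp1, hp2⟩ := mem_product.mp hp
    obtain ⟨hi, hj⟩ := mem_product.mp hp2
    rw [s8_shift r N _ (fun l => p.2.1 * k l + p.2.2 * k' l)
      (fun m hm => s8_mem hkH (mem_range.mp hi) (mem_range.mp hj) hm)]
    · refine sum_congr rfl fun m hm => ?_
      have e1 : (fun l => (m l : ℤ) + (p.2.1 * k l + p.2.2 * k' l) - p.2.1 * k l - p.2.2 * k' l)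
          = fun l => (m l : ℤ) := by
        funext l
        ring
      unfold s8_phi
      rw [e1, s8_ext_cast r N a _ m hm, s8_dt, s8_sqs, mul_assoc, mul_assoc, ← w6_ps_add,
        ← w6_ps_add]
      rw [← w6_ps_add, mul_left_comm, ← w6_ps_add]
      congr 2
      push_cast
      ring
    · intro μ _ hμ'
      rw [s8_ext_zero, zero_mul, zero_mul]
      intro m hm h
      refine hμ' m hm ?_
      funext l
      have := congrFun h l
      rw [this]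
      ring
  have h2 : ∑ μ ∈ BZ r (N + 2 * H * J), (∑ p ∈ I ×ˢ (range J ×ˢ range J),
      s8_ext r N a p.1 (fun l => μ l - p.2.1 * k l - p.2.2 * k' l) *
        s8_phi A r k k' c c' μ p z) * ps A (dt μ y)
      = ∑ p ∈ I ×ˢ (range J ×ˢ range J), ∑ μ ∈ BZ r (N + 2 * H * J),
      s8_ext r N a p.1 (fun l => μ l - p.2.1 * k l - p.2.2 * k' l) *
        s8_phi A r k k' c c' μ p z * ps A (dt μ y) := by
    rw [sum_comm]
    exact sum_congr rfl fun μ _ => by rw [sum_mul]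
  rw [h2, sum_congr rfl h1, sum_product]
  unfold F
  rw [mul_sum]
  refine sum_congr rfl fun n _ => ?_
  rw [sum_product, sum_mul_sum, sum_mul]
  refine sum_congr rfl fun i _ => ?_
  rw [sum_mul]
  refine sum_congr rfl fun j _ => ?_
  rw [mul_sum]

/-! ### the Schur condition -/

theorem s8_U_nonneg (A V L : ℕ) (hL : 1 ≤ L) (u : ZMod A) : 0 ≤ U A V L u :=
  sum_nonneg fun _ _ => w6_mn_nonneg A L (by exact_mod_cast hL) _

theorem s8_U_mono (A V V' L : ℕ) (hV : V ≤ V') (hL : 1 ≤ L) (u : ZMod A) :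
    U A V L u ≤ U A V' L u := by
  refine sum_le_sum_of_subset_of_nonneg ?_ fun _ _ _ => w6_mn_nonneg A L (by exact_mod_cast hL) _
  exact Icc_subset_Icc (by simpa using hV) (by simpa using hV)

theorem s8_kernel (A r H J N V b : ℕ) [NeZero A] (hN : 1 ≤ N) (hJ : 1 ≤ J) (hJN : J ≤ N)
    (hV : 4 * r * H ^ 2 * J ≤ V) (hV' : 2 * N ≤ V)
    (k k' : Fin r → ℤ) (hk : Ind k k') (hkH : ∀ l, |k l| ≤ H ∧ |k' l| ≤ H)
    (c c' : ZMod A → ZMod A) (μ : Fin r → ℤ) (z : ZMod A) :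
    (A : ℝ)⁻¹ * ∑ z' : ZMod A, ‖∑ p ∈ Icc (b + 1) (b + N) ×ˢ (range J ×ˢ range J),
      s8_phi A r k k' c c' μ p z * conj (s8_phi A r k k' c c' μ p z')‖ ≤
      (A : ℝ)⁻¹ * ∑ u : ZMod A, U A V N u ^ (3 / 2 : ℝ) := by
  have hs : ∑ u : ZMod A, U A V N u ^ (3 / 2 : ℝ)
      = ∑ z' : ZMod A, U A V N (z - z') ^ (3 / 2 : ℝ) :=
    (Equiv.sum_comp (Equiv.subLeft z) fun u => U A V N u ^ (3 / 2 : ℝ)).symm
  rw [hs]
  refine mul_le_mul_of_nonneg_left (sum_le_sum fun z' _ => ?_) (by positivity)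
  have h1 : ∑ p ∈ Icc (b + 1) (b + N) ×ˢ (range J ×ˢ range J),
      s8_phi A r k k' c c' μ p z * conj (s8_phi A r k k' c c' μ p z')
      = (∑ n ∈ Icc (b + 1) (b + N), ps A (((n ^ 2 : ℕ) : ZMod A) * (z - z'))) *
        ∑ i ∈ range J, ∑ j ∈ range J,
      ps A ((sqs (fun l => μ l - i * k l - j * k' l) : ZMod A) * (z - z') -
        (i : ZMod A) * (c z - c z') - (j : ZMod A) * (c' z - c' z')) := by
    rw [sum_product, sum_mul]
    refine sum_congr rfl fun n _ => ?_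
    rw [sum_product, mul_sum]
    refine sum_congr rfl fun i _ => ?_
    rw [mul_sum]
    refine sum_congr rfl fun j _ => ?_
    unfold s8_phi
    rw [map_mul, w6_ps_conj, w6_ps_conj, ← w6_ps_add, ← w6_ps_add, ← w6_ps_add, ← w6_ps_add]
    congr 1
    ring
  rw [h1, norm_mul]
  have hU := s8_U_nonneg A V N hN (z - z')
  have h2 : ‖∑ n ∈ Icc (b + 1) (b + N), ps A (((n ^ 2 : ℕ) : ZMod A) * (z - z'))‖
      ≤ U A V N (z - z') ^ (1 / 2 : ℝ) := by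
    rw [← Real.sqrt_eq_rpow]
    exact Real.le_sqrt_of_sq_le ((weylN A b N hN _).trans (s8_U_mono A _ _ N hV' hN _))
  have h3 := weylJ A r H J N V k k' μ hk hkH hJ hJN hV (z - z') (c z - c z') (c' z - c' z')
  calc _ ≤ U A V N (z - z') ^ (1 / 2 : ℝ) * U A V N (z - z') :=
        mul_le_mul h2 h3 (norm_nonneg _) (by positivity)
    _ = U A V N (z - z') ^ (3 / 2 : ℝ) := by
        rcases hU.eq_or_lt with h | h
        · rw [← h, mul_zero, Real.zero_rpow (by norm_num)]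
        · rw [← Real.rpow_add_one h.ne']
          norm_num

/-! ### the slab estimate -/

theorem slab (A r H J N V b : ℕ) [NeZero A] (hN : 1 ≤ N) (hJ : 1 ≤ J) (hJN : J ≤ N) (hH : 1 ≤ H)
    (hV : 4 * r * H ^ 2 * J ≤ V) (hV' : 2 * N ≤ V) (hA : 8 * (N + 2 * H * J) < A)
    (a : ℕ → (Fin r → ℕ) → ℂ) (ha : nsq r (Icc (b + 1) (b + N)) N a ≤ 1)
    (k k' : Fin r → ℤ) (hk : Ind k k') (hkH : ∀ l, |k l| ≤ H ∧ |k' l| ≤ H)
    (c c' : ZMod A → ZMod A) (W : Finset (ZMod A × (Fin r → ZMod A))) (lam : ℝ) (hlam : 0 ≤ lam)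
    (hW : ∀ w ∈ W, lam ≤ ‖F A r (Icc (b + 1) (b + N)) N a w.1 w.2‖)
    (hWc : ∀ w ∈ W, nrm A (dt k w.2 - c w.1) ≤ 1 / (2 * J) ∧
      nrm A (dt k' w.2 - c' w.1) ≤ 1 / (2 * J)) :
    lam ^ 2 * mu A r W ≤ 10 / (J : ℝ) ^ 2 *
      ((A : ℝ)⁻¹ * ∑ u : ZMod A, U A V N u ^ (3 / 2 : ℝ)) := by
  have hJ0 : (0 : ℝ) < J := by exact_mod_cast hJ
  have hA0 : (0 : ℝ) < A := by exact_mod_cast Nat.pos_of_ne_zero (NeZero.ne A)
  set B : ℝ := (A : ℝ)⁻¹ * ∑ u : ZMod A, U A V N u ^ (3 / 2 : ℝ) with hB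
  have hB0 : 0 ≤ B := mul_nonneg (by positivity)
    (sum_nonneg fun u _ => Real.rpow_nonneg (s8_U_nonneg A V N hN u) _)
  set I := Icc (b + 1) (b + N) with hI
  set P := I ×ˢ (range J ×ˢ range J) with hP
  set M := N + 2 * H * J with hM
  set G : ZMod A → (Fin r → ℤ) → ℂ := fun z μ => ∑ p ∈ P,
      s8_ext r N a p.1 (fun l => μ l - p.2.1 * k l - p.2.2 * k' l) *
        s8_phi A r k k' c c' μ p z with hG
  -- pointwise bound on `W`
  have h1 : ∀ w ∈ W, lam ^ 2 ≤ 10 / (J : ℝ) ^ 4 *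
      ‖∑ μ ∈ BZ r M, G w.1 μ * ps A (dt μ w.2)‖ ^ 2 := by
    intro w hw
    have e := s8_expand A r H J N I a k k' hkH c c' w.1 w.2
    rw [← e, norm_mul, norm_mul]
    have d1 := s8_lower A J hJ _ (hWc w hw).1
    have d2 := s8_lower A J hJ _ (hWc w hw).2
    have d3 := hW w hw
    set x := ‖∑ j ∈ range J, ps A ((j : ZMod A) * (dt k w.2 - c w.1))‖ with hx
    set y := ‖∑ j ∈ range J, ps A ((j : ZMod A) * (dt k' w.2 - c' w.1))‖ with hy
    set f := ‖F A r I N a w.1 w.2‖ with hf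
    have h2 : (57 / 100 * (J : ℝ)) * (57 / 100 * J) * lam ≤ x * y * f := by
      gcongr
    have h3 : ((57 / 100 * (J : ℝ)) * (57 / 100 * J) * lam) ^ 2 ≤ (x * y * f) ^ 2 :=
      pow_le_pow_left₀ (by positivity) h2 2
    rw [div_mul_eq_mul_div, le_div_iff₀ (by positivity)]
    have h4 : (0 : ℝ) ≤ lam ^ 2 * (J : ℝ) ^ 4 := by positivity
    nlinarith
  -- sum over `W`
  have h2 : lam ^ 2 * W.card ≤ 10 / (J : ℝ) ^ 4 *
      ∑ z : ZMod A, ∑ y : Fin r → ZMod A, ‖∑ μ ∈ BZ r M, G z μ * ps A (dt μ y)‖ ^ 2 := by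
    have h3 : lam ^ 2 * W.card ≤ ∑ w ∈ W, 10 / (J : ℝ) ^ 4 *
        ‖∑ μ ∈ BZ r M, G w.1 μ * ps A (dt μ w.2)‖ ^ 2 := by
      have := card_nsmul_le_sum W _ _ h1
      rw [nsmul_eq_mul] at this
      linarith
    refine h3.trans ?_
    rw [← mul_sum]
    refine mul_le_mul_of_nonneg_left ?_ (by positivity)
    rw [← Fintype.sum_prod_type' (f := fun z y => ‖∑ μ ∈ BZ r M, G z μ * ps A (dt μ y)‖ ^ 2)]
    exact sum_le_sum_of_subset_of_nonneg (subset_univ _) fun _ _ _ => sq_nonneg _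
  -- Parseval in space
  have h3 : ∀ z : ZMod A, ((A : ℝ)⁻¹) ^ r * ∑ y : Fin r → ZMod A,
      ‖∑ μ ∈ BZ r M, G z μ * ps A (dt μ y)‖ ^ 2 = ∑ μ ∈ BZ r M, ‖G z μ‖ ^ 2 := by
    intro z
    refine pars A r (BZ r M) (fun m hm l => ?_) (G z)
    have := Fintype.mem_piFinset.mp hm l
    rw [mem_Icc] at this
    have h4 : |m l| ≤ M := abs_le.mpr this
    have h5 : 8 * (M : ℤ) < A := by exact_mod_cast hA
    have h6 : (0 : ℤ) ≤ M := by positivity
    linarith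
  -- Schur in time
  have h4 : ∀ μ ∈ BZ r M, (A : ℝ)⁻¹ * ∑ z : ZMod A, ‖G z μ‖ ^ 2 ≤ B * ∑ p ∈ P,
      ‖s8_ext r N a p.1 (fun l => μ l - p.2.1 * k l - p.2.2 * k' l)‖ ^ 2 := by
    intro μ _
    exact schur A P (s8_phi A r k k' c c' μ) B
      (fun z => s8_kernel A r H J N V b hN hJ hJN hV hV' k k' hk hkH c c' μ z) _
  -- total mass of the coefficients
  have h5 : ∑ μ ∈ BZ r M, ∑ p ∈ P,
      ‖s8_ext r N a p.1 (fun l => μ l - p.2.1 * k l - p.2.2 * k' l)‖ ^ 2 ≤ (J : ℝ) ^ 2 := by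
    rw [sum_comm]
    have h6 : ∀ p ∈ P, ∑ μ ∈ BZ r M,
        ‖s8_ext r N a p.1 (fun l => μ l - p.2.1 * k l - p.2.2 * k' l)‖ ^ 2 =
        ∑ m ∈ IJ r N, ‖a p.1 m‖ ^ 2 := by
      intro p hp
      obtain ⟨hp1, hp2⟩ := mem_product.mp hp
      obtain ⟨hi, hj⟩ := mem_product.mp hp2
      rw [s8_shift r N _ (fun l => p.2.1 * k l + p.2.2 * k' l)
        (fun m hm => s8_mem hkH (mem_range.mp hi) (mem_range.mp hj) hm)]
      · refine sum_congr rfl fun m hm => ?_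
        have e1 : (fun l => (m l : ℤ) + (p.2.1 * k l + p.2.2 * k' l) - p.2.1 * k l -
            p.2.2 * k' l) = fun l => (m l : ℤ) := by
          funext l
          ring
        rw [e1, s8_ext_cast r N a _ m hm]
      · intro μ _ hμ'
        rw [s8_ext_zero, norm_zero, zero_pow two_ne_zero]
        intro m hm h
        refine hμ' m hm ?_
        funext l
        have := congrFun h l
        rw [this]
        ring
    rw [sum_congr rfl h6, hP, sum_product]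
    have h7 : ∑ n ∈ I, ∑ _q ∈ range J ×ˢ range J, ∑ m ∈ IJ r N, ‖a n m‖ ^ 2
        = (J : ℝ) ^ 2 * nsq r I N a := by
      unfold nsq
      rw [mul_sum]
      refine sum_congr rfl fun n _ => ?_
      rw [sum_const, card_product, card_range, nsmul_eq_mul]
      push_cast
      ring
    simp only at h7 ⊢
    rw [h7]
    calc (J : ℝ) ^ 2 * nsq r I N a ≤ (J : ℝ) ^ 2 * 1 := by gcongr
      _ = _ := mul_one _
  -- assembly
  have h6 : ((A : ℝ)⁻¹) ^ (r + 1) * ∑ z : ZMod A, ∑ y : Fin r → ZMod A,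
      ‖∑ μ ∈ BZ r M, G z μ * ps A (dt μ y)‖ ^ 2 ≤ B * (J : ℝ) ^ 2 := by
    calc ((A : ℝ)⁻¹) ^ (r + 1) * ∑ z : ZMod A, ∑ y : Fin r → ZMod A,
          ‖∑ μ ∈ BZ r M, G z μ * ps A (dt μ y)‖ ^ 2
        = (A : ℝ)⁻¹ * ∑ z : ZMod A, ∑ μ ∈ BZ r M, ‖G z μ‖ ^ 2 := by
          simp only [← h3]
          rw [← mul_sum, pow_succ]
          ring
      _ = ∑ μ ∈ BZ r M, (A : ℝ)⁻¹ * ∑ z : ZMod A, ‖G z μ‖ ^ 2 := by
          rw [← mul_sum, sum_comm]
      _ ≤ ∑ μ ∈ BZ r M, B * ∑ p ∈ P,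
          ‖s8_ext r N a p.1 (fun l => μ l - p.2.1 * k l - p.2.2 * k' l)‖ ^ 2 := sum_le_sum h4
      _ ≤ B * (J : ℝ) ^ 2 := by
          rw [← mul_sum]
          exact mul_le_mul_of_nonneg_left h5 hB0
  have h7 : mu A r W = ((A : ℝ)⁻¹) ^ (r + 1) * W.card := by
    unfold mu
    rw [inv_pow]
    field_simp
  rw [h7]
  calc lam ^ 2 * (((A : ℝ)⁻¹) ^ (r + 1) * W.card)
      = ((A : ℝ)⁻¹) ^ (r + 1) * (lam ^ 2 * W.card) := by ring
    _ ≤ ((A : ℝ)⁻¹) ^ (r + 1) * (10 / (J : ℝ) ^ 4 *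
      ∑ z : ZMod A, ∑ y : Fin r → ZMod A, ‖∑ μ ∈ BZ r M, G z μ * ps A (dt μ y)‖ ^ 2) := by
        gcongr
    _ = 10 / (J : ℝ) ^ 4 * (((A : ℝ)⁻¹) ^ (r + 1) *
      ∑ z : ZMod A, ∑ y : Fin r → ZMod A, ‖∑ μ ∈ BZ r M, G z μ * ps A (dt μ y)‖ ^ 2) := by
        ring
    _ ≤ 10 / (J : ℝ) ^ 4 * (B * (J : ℝ) ^ 2) := by gcongr
    _ = 10 / (J : ℝ) ^ 2 * B := by
        field_simp

end Stx
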